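import Pool.Agent.Helper78.ME.Wk

/-!
# Packet LKT: the contents of the cells are determined by the events of the block
-/

namespace Pool.Agent.Helper70.ME

open Pool.Agent.Helper65.LinSpace Pool.Agent.Helper78.ME Finset

theorem LKT : LKT_stmt := by
  intro m hm b n y hy T
  induction T with
  | zero => intro _ p; rfl
  | succ T ih =>
    intro hT p
    have h1 := ih (by omega) p
    have h2 := hy T (by omega)
    have h3 := hm.lp_eq (b * (m.e * (m.e * m.d)) + T)
    have h4 : m.lk y (T + 1) p ((m.conf (b * (m.e * (m.e * m.d)))).2 p) =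
        ifz (eq01 (m.lp (dig (2 ^ m.σ) y T)) p)
          (m.lk y T p ((m.conf (b * (m.e * (m.e * m.d)))).2 p)) (m.lc (dig (2 ^ m.σ) y T)) := rfl
    rw [h4, h1, h2, h3]
    have h5 : (m.conf (b * (m.e * (m.e * m.d)) + T + 1)).2 =
        Function.update (m.conf (b * (m.e * (m.e * m.d)) + T)).2
          (m.ap (m.conf (b * (m.e * (m.e * m.d)) + T)).1)
          (m.lc (m.conf (b * (m.e * (m.e * m.d)) + T + 1)).1) := rfl
    rw [← Nat.add_assoc, h5, Function.update_apply]
    unfold ifz eq01
    by_cases h6 : p = m.ap (m.conf (b * (m.e * (m.e * m.d)) + T)).1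
    · simp [h6]
    · have h7 : m.ap (m.conf (b * (m.e * (m.e * m.d)) + T)).1 ≠ p := fun h => h6 h.symm
      simp [h6, h7]

end Pool.Agent.Helper70.ME
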